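import Pool.Agent.X288.ZM.Perm

/-!
# Permutability of subgroups of `ZM(m, n, r)`: the converse
-/

set_option autoImplicit false
set_option linter.unusedSectionVars false

open Finset Pointwise

namespace Pool.Agent.X288.ZMG

variable {m n r : ℕ} [NeZero m] [NeZero n] [hr : Fact ((r : ZMod m) ^ n = 1)]

omit hr in
theorem dvd_iff_cast {g : ℕ} (hg : g ∣ m) (z : ZMod m) :
    (g : ZMod m) ∣ z ↔ ZMod.castHom hg (ZMod g) z = 0 := by
  obtain ⟨t, rfl⟩ := ZMod.intCast_surjective z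
  rw [dvd_int hg, map_intCast, ZMod.intCast_zmod_eq_zero_iff_dvd]

theorem dvd_of_perm (hcop : Nat.Coprime m n) {m₁ n₁ m₂ n₂ : ℕ} (hm₁ : m₁ ∣ m)
    (hn₁ : n₁ ∣ n) (hn₂ : n₂ ∣ n) {u v : ℤ} (A B : Subgroup (ZM m n r))
    (hA : A = Hs m₁ n₁ hn₁ u) (hB : B = Hs m₂ n₂ hn₂ v)
    (h : (A : Set (ZM m n r)) * B = (B : Set (ZM m n r)) * A) :
    ((Nat.gcd m₁ m₂ : ℕ) : ZMod m) ∣
      (u - v) * (((r : ZMod m) ^ n₁ - 1) * ((r : ZMod m) ^ n₂ - 1)) := by
  set g := Nat.gcd m₁ m₂ with hgdef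
  have hg1 : g ∣ m₁ := Nat.gcd_dvd_left _ _
  have hg2 : g ∣ m₂ := Nat.gcd_dvd_right _ _
  have hgm : g ∣ m := hg1.trans hm₁
  have hgpos : g ≠ 0 := by
    rintro h0
    rw [h0] at hgm
    exact NeZero.ne m (Nat.eq_zero_of_zero_dvd hgm)
  have : NeZero g := ⟨hgpos⟩
  set c := ZMod.castHom hgm (ZMod g) with hc
  have hcr : (c (r : ZMod m)) ^ n = 1 := by
    rw [← map_pow, hr.out, map_one]
  set ρ : (ZMod g)ˣ := Units.ofPowEqOne (c (r : ZMod m)) n hcr (NeZero.ne n) with hρ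
  have hρv : (ρ : ZMod g) = c r := rfl
  have hρn : ρ ^ n = 1 := by
    apply Units.ext
    rw [Units.val_pow_eq_pow_val, hρv, hcr, Units.val_one]
  set ℓ := Nat.lcm n₁ n₂ with hℓ
  have hℓn : ℓ ∣ n := Nat.lcm_dvd hn₁ hn₂
  set T := ρ ^ ℓ with hT
  obtain ⟨k, hk⟩ := hℓn
  have hTk : T ^ k = 1 := by rw [hT, ← pow_mul, ← hk, hρn]
  have hgk : Nat.Coprime g k :=
    (hcop.coprime_dvd_left hgm).coprime_dvd_right ⟨ℓ, by rw [hk, mul_comm]⟩
  have hRy : ∀ (y : ZMod n), DY ℓ y → ∃ j : ℕ, c (R m n r y) = ((T ^ j : (ZMod g)ˣ) : ZMod g) := by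
    rintro y ⟨j, hj⟩
    refine ⟨j, ?_⟩
    unfold R
    rw [hj, map_pow, hT, ← pow_mul, Units.val_pow_eq_pow_val, hρv]
  have hlcm : ∀ y : ZMod n, DY n₁ y → DY n₂ y → DY ℓ y := fun y h1 h2 => Nat.lcm_dvd h1 h2
  have hcA : ∀ a ∈ A, c a.x = u * (c (R m n r a.y) - 1) := by
    intro a ha
    rw [hA] at ha
    have h1 : (g : ZMod m) ∣ a.x - u * (R m n r a.y - 1) := (Nat.cast_dvd_cast hg1).trans ha.2
    rw [dvd_iff_cast hgm, map_sub, map_mul, map_sub, map_one, map_intCast, sub_eq_zero] at h1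
    exact h1
  have hcB : ∀ b ∈ B, c b.x = v * (c (R m n r b.y) - 1) := by
    intro b hb
    rw [hB] at hb
    have h1 : (g : ZMod m) ∣ b.x - v * (R m n r b.y - 1) := (Nat.cast_dvd_cast hg2).trans hb.2
    rw [dvd_iff_cast hgm, map_sub, map_mul, map_sub, map_one, map_intCast, sub_eq_zero] at h1
    exact h1
  have hyA : ∀ a ∈ A, DY n₁ a.y := by
    intro a ha
    rw [hA] at ha
    exact ha.1
  have hyB : ∀ b ∈ B, DY n₂ b.y := by
    intro b hb
    rw [hB] at hb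
    exact hb.1
  -- the product
  have hmulmem : ∀ p q : ZM m n r, p ∈ (A : Set (ZM m n r)) * B →
      q ∈ (A : Set (ZM m n r)) * B → p * q ∈ (A : Set (ZM m n r)) * B := by
    rintro _ _ ⟨a, ha, b, hb, rfl⟩ ⟨a', ha', b', hb', rfl⟩
    have h1 : b * a' ∈ (A : Set (ZM m n r)) * B := by
      rw [h]
      exact ⟨b, hb, a', ha', rfl⟩
    obtain ⟨a'', ha'', b'', hb'', h2⟩ := h1
    refine ⟨a * a'', A.mul_mem ha ha'', b'' * b', B.mul_mem hb'' hb', ?_⟩
    show a * a'' * (b'' * b') = a * b * (a' * b')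
    have h2' : a'' * b'' = b * a' := h2
    calc a * a'' * (b'' * b') = a * (a'' * b'') * b' := by simp only [mul_assoc]
      _ = a * (b * a') * b' := by rw [h2']
      _ = a * b * (a' * b') := by simp only [mul_assoc]
  have hinvmem : ∀ p : ZM m n r, p ∈ (A : Set (ZM m n r)) * B →
      p⁻¹ ∈ (A : Set (ZM m n r)) * B := by
    rintro _ ⟨a, ha, b, hb, rfl⟩
    rw [h]
    refine ⟨b⁻¹, B.inv_mem hb, a⁻¹, A.inv_mem ha, ?_⟩
    show b⁻¹ * a⁻¹ = (a * b)⁻¹
    rw [mul_inv_rev]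
  let X : AddSubgroup (ZMod g) :=
    { carrier := {z | ∃ x : ZMod m, (⟨0, x⟩ : ZM m n r) ∈ (A : Set (ZM m n r)) * B ∧ c x = z}
      zero_mem' := ⟨0, ⟨1, A.one_mem, 1, B.one_mem, mul_one _⟩, map_zero c⟩
      add_mem' := by
        rintro _ _ ⟨x, hx, rfl⟩ ⟨x', hx', rfl⟩
        refine ⟨x + x', ?_, map_add c _ _⟩
        have h1 := hmulmem _ _ hx hx'
        have e : (⟨0, x⟩ : ZM m n r) * ⟨0, x'⟩ = ⟨0, x + x'⟩ := by
          ext
          · rw [mul_y]
            exact add_zero _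
          · rw [mul_x]
            show x * R m n r 0 + x' = x + x'
            rw [R_zero, mul_one]
        rwa [e] at h1
      neg_mem' := by
        rintro _ ⟨x, hx, rfl⟩
        refine ⟨-x, ?_, map_neg c _⟩
        have h1 := hinvmem _ hx
        have e : (⟨0, x⟩ : ZM m n r)⁻¹ = ⟨0, -x⟩ := by
          ext
          · rw [inv_y]
            exact neg_zero
          · rw [inv_x]
            show -(x * R m n r (-0)) = -x
            rw [neg_zero, R_zero, mul_one]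
        rwa [e] at h1 }
  set w : ZMod g := (u : ZMod g) - v with hw
  have hX : ∀ z, z ∈ X ↔ ∃ U ∈ Subgroup.zpowers T, z = w - U * w := by
    intro z
    constructor
    · rintro ⟨x, ⟨a, ha, b, hb, hab⟩, rfl⟩
      have hab' : a * b = ⟨0, x⟩ := hab
      have h1 : a.y + b.y = 0 := by rw [← mul_y, hab']
      have h2 : a.x * R m n r b.y + b.x = x := by rw [← mul_x, hab']
      have h3 : b.y = -a.y := by
        rw [eq_neg_iff_add_eq_zero, add_comm]
        exact h1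
      have h4 : DY n₁ b.y := by
        rw [h3]
        exact DY_neg hn₁ (hyA a ha)
      obtain ⟨j, hj⟩ := hRy b.y (hlcm _ h4 (hyB b hb))
      refine ⟨T ^ j, Subgroup.pow_mem _ (Subgroup.mem_zpowers T) j, ?_⟩
      have h5 : c (R m n r a.y) * c (R m n r b.y) = 1 := by
        rw [← map_mul, ← R_add, h1, R_zero, map_one]
      rw [← h2, map_add, map_mul, hcA a ha, hcB b hb, ← hj, hw]
      linear_combination (u : ZMod g) * h5
    · rintro ⟨U, hU, rfl⟩
      rw [mem_zpowers_iff_mem_range_orderOf] at hU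
      obtain ⟨j, -, rfl⟩ := Finset.mem_image.1 hU
      have hy2 : DY ℓ ((ℓ * j : ℕ) : ZMod n) := by
        rw [DY_nat (Nat.lcm_dvd hn₁ hn₂)]
        exact dvd_mul_right _ _
      have hd1 : DY n₁ (((ℓ * j : ℕ) : ZMod n)) := (Nat.dvd_lcm_left n₁ n₂).trans hy2
      have hd2 : DY n₂ (((ℓ * j : ℕ) : ZMod n)) := (Nat.dvd_lcm_right n₁ n₂).trans hy2
      have ha : (⟨-((ℓ * j : ℕ) : ZMod n), u * (R m n r (-((ℓ * j : ℕ) : ZMod n)) - 1)⟩ :
          ZM m n r) ∈ A := by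
        rw [hA]
        exact std_mem (DY_neg hn₁ hd1)
      have hb : (⟨((ℓ * j : ℕ) : ZMod n), v * (R m n r ((ℓ * j : ℕ) : ZMod n) - 1)⟩ :
          ZM m n r) ∈ B := by
        rw [hB]
        exact std_mem hd2
      refine ⟨u * (R m n r (-((ℓ * j : ℕ) : ZMod n)) - 1) * R m n r ((ℓ * j : ℕ) : ZMod n) +
        v * (R m n r ((ℓ * j : ℕ) : ZMod n) - 1), ⟨_, ha, _, hb, ?_⟩, ?_⟩
      · show (_ : ZM m n r) * _ = _
        ext
        · rw [mul_y]
          exact neg_add_cancel _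
        · rw [mul_x]
      · have h5 : c (R m n r (-((ℓ * j : ℕ) : ZMod n))) * c (R m n r ((ℓ * j : ℕ) : ZMod n)) =
            1 := by
          rw [← map_mul, R_neg, map_one]
        have h6 : c (R m n r ((ℓ * j : ℕ) : ZMod n)) = ((T ^ j : (ZMod g)ˣ) : ZMod g) := by
          rw [R_nat, map_pow, hT, ← pow_mul, Units.val_pow_eq_pow_val, hρv]
        rw [map_add, map_mul, map_mul, map_sub, map_mul, map_sub, map_one, map_intCast,
          map_intCast, ← h6, hw]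
        linear_combination (u : ZMod g) * h5
  have hTw : (T : ZMod g) * w = w := orbit_trivial hgk T hTk w X hX
  have hTjw : ∀ j : ℕ, ((T ^ j : (ZMod g)ˣ) : ZMod g) * w = w := by
    intro j
    induction j with
    | zero => simp
    | succ j ih => rw [pow_succ, Units.val_mul, mul_assoc, hTw, ih]
  -- the generators
  have ha : (⟨(n₁ : ZMod n), u * (R m n r n₁ - 1)⟩ : ZM m n r) ∈ A := by
    rw [hA]
    exact std_mem ((DY_nat hn₁ n₁).2 dvd_rfl)
  have hb : (⟨(n₂ : ZMod n), v * (R m n r n₂ - 1)⟩ : ZM m n r) ∈ B := by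
    rw [hB]
    exact std_mem ((DY_nat hn₂ n₂).2 dvd_rfl)
  have hab : (⟨(n₁ : ZMod n), u * (R m n r n₁ - 1)⟩ : ZM m n r) *
      ⟨(n₂ : ZMod n), v * (R m n r n₂ - 1)⟩ ∈ (B : Set (ZM m n r)) * A := by
    rw [← h]
    exact ⟨_, ha, _, hb, rfl⟩
  obtain ⟨b', hb', a', ha', he⟩ := hab
  have he' : b' * a' = (⟨(n₁ : ZMod n), u * (R m n r n₁ - 1)⟩ : ZM m n r) *
      ⟨(n₂ : ZMod n), v * (R m n r n₂ - 1)⟩ := he
  have hy : b'.y + a'.y = (n₁ : ZMod n) + n₂ := by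
    rw [← mul_y, he', mul_y]
  have hx : b'.x * R m n r a'.y + a'.x =
      u * (R m n r n₁ - 1) * R m n r n₂ + v * (R m n r n₂ - 1) := by
    rw [← mul_x, he', mul_x]
  have e1 : a'.y = (n₁ : ZMod n) + (a'.y - n₁) := by ring
  have e2 : a'.y - (n₁ : ZMod n) = (n₂ : ZMod n) + -b'.y := by linear_combination hy
  have d1 : DY n₁ (a'.y - (n₁ : ZMod n)) := by
    rw [sub_eq_add_neg]
    exact DY_add hn₁ (hyA a' ha') (DY_neg hn₁ ((DY_nat hn₁ n₁).2 dvd_rfl))
  have d2 : DY n₂ (a'.y - (n₁ : ZMod n)) := by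
    rw [e2]
    exact DY_add hn₂ ((DY_nat hn₂ n₂).2 dvd_rfl) (DY_neg hn₂ (hyB b' hb'))
  obtain ⟨j, hj⟩ := hRy _ (hlcm _ d1 d2)
  have hP : c (R m n r a'.y) = c ((r : ZMod m) ^ n₁) * ((T ^ j : (ZMod g)ˣ) : ZMod g) := by
    rw [e1, R_add, map_mul, hj, R_nat]
  have hQ : c (R m n r b'.y) * c (R m n r a'.y) =
      c ((r : ZMod m) ^ n₁) * c ((r : ZMod m) ^ n₂) := by
    rw [← map_mul, ← R_add, hy, R_add, R_nat, R_nat, map_mul]
  have hx' := congrArg c hx
  rw [map_add, map_mul, hcA a' ha', hcB b' hb', map_add, map_mul, map_mul, map_sub, map_mul,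
    map_sub, map_one, map_intCast, map_intCast, R_nat, R_nat] at hx'
  have hwP : w * c (R m n r a'.y) = w * c ((r : ZMod m) ^ n₁) := by
    rw [hP, mul_comm w, mul_assoc, hTjw, mul_comm]
  rw [dvd_iff_cast hgm]
  show c _ = 0
  rw [map_mul, map_mul, map_sub, map_sub, map_sub, map_intCast, map_intCast, map_one]
  rw [hw] at hwP
  linear_combination hwP - hx' + (v : ZMod g) * hQ

end Pool.Agent.X288.ZMG
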