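import Pool.Agent.X288.ZM.Conv

/-!
# Counting subgroups and permuting pairs of subgroups of `ZM(m, n, r)`
-/

set_option autoImplicit false
set_option linter.unusedSectionVars false

open Finset Pointwise

namespace Pool.Agent.X288.ZMG

/-- `k / gcd (k, s)` -/
def e (k s : ℕ) : ℕ := k / Nat.gcd k s

theorem e_pos {k : ℕ} (hk : 0 < k) (s : ℕ) : 0 < e k s :=
  Nat.div_pos (Nat.le_of_dvd hk (Nat.gcd_dvd_left k s)) (Nat.gcd_pos_of_pos_left s hk)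

theorem dvd_mul_iff {k : ℕ} (hk : 0 < k) (s : ℕ) (z : ℤ) :
    (k : ℤ) ∣ z * s ↔ (e k s : ℤ) ∣ z := by
  unfold e
  obtain ⟨g, k', s', hg, hcop, hk', hs'⟩ : ∃ g k' s' : ℕ, 0 < g ∧ Nat.Coprime k' s' ∧
      k = k' * g ∧ s = s' * g := by
    obtain ⟨k', s', h1, h2, h3⟩ := Nat.exists_coprime k s
    exact ⟨_, k', s', Nat.gcd_pos_of_pos_left s hk, h1, h2, h3⟩
  have hg2 : Nat.gcd k s = g := by
    rw [hk', hs', Nat.gcd_mul_right, hcop, one_mul]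
  rw [hg2, hk', Nat.mul_div_cancel _ hg, hs']
  push_cast
  rw [← mul_assoc, mul_dvd_mul_iff_right (by exact_mod_cast hg.ne' : (g : ℤ) ≠ 0)]
  exact ⟨fun h => (Nat.isCoprime_iff_coprime.2 hcop).dvd_of_dvd_mul_right h,
    fun h => Dvd.dvd.mul_right h _⟩

theorem e_dvd_e {k l s t : ℕ} (hl : 0 < l) (hkl : k ∣ l) (hst : s ∣ t) : e k t ∣ e l s := by
  have hk : 0 < k := Nat.pos_of_dvd_of_pos hkl hl
  rw [← Int.natCast_dvd_natCast, ← dvd_mul_iff hk]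
  have h1 : (l : ℤ) ∣ (e l s : ℤ) * s := (dvd_mul_iff hl s _).2 dvd_rfl
  have h2 : (k : ℤ) ∣ (l : ℤ) := Int.natCast_dvd_natCast.2 hkl
  exact (h2.trans h1).trans (mul_dvd_mul_left _ (Int.natCast_dvd_natCast.2 hst))

theorem cnt {E D : ℕ} (hD : 0 < D) (h : D ∣ E) (c : ℤ) :
    (∑ v ∈ range E, if (D : ℤ) ∣ (v : ℤ) - c then 1 else 0) = E / D := by
  obtain ⟨k, rfl⟩ := h
  rw [Nat.mul_div_cancel_left _ hD, ← Finset.card_filter]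
  have hD' : (D : ℤ) ≠ 0 := by exact_mod_cast hD.ne'
  set c0 := (c % D).toNat with hc0
  have h1 : (c0 : ℤ) = c % D := Int.toNat_of_nonneg (Int.emod_nonneg _ hD')
  have h2 : c0 < D := by
    have := Int.emod_lt_of_pos c (by exact_mod_cast hD : (0 : ℤ) < D)
    omega
  have h3 : (range (D * k)).filter (fun v : ℕ => (D : ℤ) ∣ (v : ℤ) - c) =
      (range k).image fun j => D * j + c0 := by
    ext v
    simp only [Finset.mem_filter, Finset.mem_range, Finset.mem_image]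
    constructor
    · rintro ⟨hv, hd⟩
      refine ⟨v / D, Nat.div_lt_of_lt_mul hv, ?_⟩
      have h4 : (v : ℤ) % D = c % D :=
        Int.emod_eq_emod_iff_emod_sub_eq_zero.2 (Int.emod_eq_zero_of_dvd hd)
      have h5 : v % D = c0 := by
        have : ((v % D : ℕ) : ℤ) = (c0 : ℤ) := by rw [h1, ← h4]; push_cast; rfl
        exact_mod_cast this
      rw [← h5]
      exact Nat.div_add_mod v D
    · rintro ⟨j, hj, rfl⟩
      refine ⟨?_, ?_⟩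
      · calc D * j + c0 < D * j + D := by omega
          _ = D * (j + 1) := by ring
          _ ≤ D * k := Nat.mul_le_mul_left _ hj
      · have h6 := Int.emod_add_mul_ediv c D
        push_cast
        rw [h1]
        refine ⟨j - c / D, ?_⟩
        linear_combination h6
  rw [h3, Finset.card_image_of_injective, Finset.card_range]
  intro a b hab
  have : D * a = D * b := by simpa using hab
  exact Nat.eq_of_mul_eq_mul_left hD this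

section

variable (m n r : ℕ) [NeZero m] [NeZero n] [hr : Fact ((r : ZMod m) ^ n = 1)]

/-- the triples which parametrize the subgroups -/
def tri : Finset (Σ _ : ℕ × ℕ, ℕ) :=
  (m.divisors ×ˢ n.divisors).sigma fun p => range (e p.1 (r ^ p.2 - 1))

/-- the subgroup given by a triple -/
noncomputable def Phi (p : Σ _ : ℕ × ℕ, ℕ) : Subgroup (ZM m n r) :=
  open Classical in if h : p.1.2 ∣ n then Hs p.1.1 p.1.2 h p.2 else ⊥

variable {m n r}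

theorem Phi_eq {p : Σ _ : ℕ × ℕ, ℕ} (h : p.1.2 ∣ n) : Phi m n r p = Hs p.1.1 p.1.2 h p.2 := by
  unfold Phi
  rw [dif_pos h]

theorem mem_tri {p : Σ _ : ℕ × ℕ, ℕ} : p ∈ tri m n r ↔
    (p.1.1 ∣ m ∧ p.1.2 ∣ n) ∧ p.2 < e p.1.1 (r ^ p.1.2 - 1) := by
  unfold tri
  rw [Finset.mem_sigma, Finset.mem_product, Nat.mem_divisors, Nat.mem_divisors, Finset.mem_range]
  simp [NeZero.ne m, NeZero.ne n]

theorem cast_s (hr0 : 0 < r) (k : ℕ) :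
    ((((r ^ k - 1 : ℕ) : ℤ) : ZMod m)) = (r : ZMod m) ^ k - 1 := by
  rw [Int.cast_natCast, Nat.cast_sub (Nat.one_le_pow _ _ hr0)]
  push_cast
  rfl

/-- containment in terms of triples -/
theorem Hs_le' (hr0 : 0 < r) {m₁ n₁ M N : ℕ} (hn₁ : n₁ ∣ n) (hN : N ∣ n) (hM : M ∣ m) {u h : ℤ} :
    (Hs m₁ n₁ hn₁ u : Subgroup (ZM m n r)) ≤ Hs M N hN h ↔
      M ∣ m₁ ∧ N ∣ n₁ ∧ (e M (r ^ n₁ - 1) : ℤ) ∣ u - h := by
  rw [Hs_le hn₁ hN hM]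
  have h1 : ((u : ZMod m) - h) * ((r : ZMod m) ^ n₁ - 1) =
      (((u - h) * ((r ^ n₁ - 1 : ℕ) : ℤ) : ℤ) : ZMod m) := by
    rw [Int.cast_mul, cast_s hr0]
    push_cast
    rfl
  rw [h1, dvd_int hM, dvd_mul_iff (Nat.pos_of_dvd_of_pos hM (Nat.pos_of_ne_zero (NeZero.ne m)))]

theorem Phi_bij (hcop : Nat.Coprime m n) (hr0 : 0 < r) :
    Set.BijOn (Phi m n r) (tri m n r) Set.univ := by
  have hm0 : 0 < m := Nat.pos_of_ne_zero (NeZero.ne m)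
  refine ⟨fun _ _ => Set.mem_univ _, ?_, ?_⟩
  · rintro ⟨⟨m₁, n₁⟩, u⟩ hp ⟨⟨m₂, n₂⟩, v⟩ hq hpq
    obtain ⟨⟨h1, h2⟩, h3⟩ := mem_tri.1 (Finset.mem_coe.1 hp)
    obtain ⟨⟨h4, h5⟩, h6⟩ := mem_tri.1 (Finset.mem_coe.1 hq)
    simp only at h1 h2 h3 h4 h5 h6
    rw [Phi_eq h2, Phi_eq h5] at hpq
    have a1 := (Hs_le' hr0 h2 h5 h4).1 hpq.le
    have a2 := (Hs_le' hr0 h5 h2 h1).1 hpq.ge
    simp only at a1 a2
    have e1 : m₁ = m₂ := Nat.dvd_antisymm a2.1 a1.1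
    have e2 : n₁ = n₂ := Nat.dvd_antisymm a2.2.1 a1.2.1
    subst e1
    subst e2
    have e3 : u = v := by
      have h7 := a1.2.2
      have h8 : (u : ℤ) - v = 0 := by
        apply Int.eq_zero_of_abs_lt_dvd h7
        rw [abs_lt]
        constructor <;> omega
      omega
    rw [e3]
  · intro K _
    obtain ⟨m₁, n₁, hm₁, hn₁, u, rfl⟩ := exists_Hs hcop K
    have hE : 0 < e m₁ (r ^ n₁ - 1) := e_pos (Nat.pos_of_dvd_of_pos hm₁ hm0) _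
    have hE' : ((e m₁ (r ^ n₁ - 1) : ℕ) : ℤ) ≠ 0 := by exact_mod_cast hE.ne'
    set u' := (u % (e m₁ (r ^ n₁ - 1) : ℕ)).toNat with hu'
    have h1 : (u' : ℤ) = u % (e m₁ (r ^ n₁ - 1) : ℕ) :=
      Int.toNat_of_nonneg (Int.emod_nonneg _ hE')
    have h2 : u' < e m₁ (r ^ n₁ - 1) := by
      have := Int.emod_lt_of_pos u (by exact_mod_cast hE : (0 : ℤ) < (e m₁ (r ^ n₁ - 1) : ℕ))
      omega
    have h3 : ((e m₁ (r ^ n₁ - 1) : ℕ) : ℤ) ∣ u - u' := by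
      rw [h1]
      exact Int.dvd_self_sub_emod
    refine ⟨⟨(m₁, n₁), u'⟩, Finset.mem_coe.2 (mem_tri.2 ⟨⟨hm₁, hn₁⟩, h2⟩), ?_⟩
    rw [Phi_eq hn₁]
    refine le_antisymm ?_ ?_
    · refine (Hs_le' hr0 hn₁ hn₁ hm₁).2 ⟨dvd_rfl, dvd_rfl, ?_⟩
      rw [dvd_sub_comm]
      exact h3
    · exact (Hs_le' hr0 hn₁ hn₁ hm₁).2 ⟨dvd_rfl, dvd_rfl, h3⟩

/-- permutability in terms of triples -/
theorem perm_iff (hcop : Nat.Coprime m n) (hr0 : 0 < r) {m₁ n₁ m₂ n₂ : ℕ} (hm₁ : m₁ ∣ m)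
    (hn₁ : n₁ ∣ n) (hn₂ : n₂ ∣ n) {u v : ℤ} :
    ((Hs m₁ n₁ hn₁ u : Subgroup (ZM m n r)) : Set (ZM m n r)) *
        ((Hs m₂ n₂ hn₂ v : Subgroup (ZM m n r)) : Set (ZM m n r)) =
      ((Hs m₂ n₂ hn₂ v : Subgroup (ZM m n r)) : Set (ZM m n r)) *
        ((Hs m₁ n₁ hn₁ u : Subgroup (ZM m n r)) : Set (ZM m n r)) ↔
    (e (Nat.gcd m₁ m₂) ((r ^ n₁ - 1) * (r ^ n₂ - 1)) : ℤ) ∣ v - u := by
  have hm0 : 0 < m := Nat.pos_of_ne_zero (NeZero.ne m)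
  have hg : Nat.gcd m₁ m₂ ∣ m := (Nat.gcd_dvd_left _ _).trans hm₁
  have h1 : ((u : ZMod m) - v) * (((r : ZMod m) ^ n₁ - 1) * ((r : ZMod m) ^ n₂ - 1)) =
      (((u - v) * (((r ^ n₁ - 1) * (r ^ n₂ - 1) : ℕ) : ℤ) : ℤ) : ZMod m) := by
    rw [Int.cast_mul, Nat.cast_mul, Int.cast_mul, cast_s hr0, cast_s hr0]
    push_cast
    rfl
  have h2 : ((Nat.gcd m₁ m₂ : ℕ) : ZMod m) ∣
      (u - v) * (((r : ZMod m) ^ n₁ - 1) * ((r : ZMod m) ^ n₂ - 1)) ↔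
      (e (Nat.gcd m₁ m₂) ((r ^ n₁ - 1) * (r ^ n₂ - 1)) : ℤ) ∣ v - u := by
    rw [h1, dvd_int hg, dvd_mul_iff (Nat.pos_of_dvd_of_pos hg hm0), dvd_sub_comm]
  rw [← h2]
  constructor
  · intro h
    exact dvd_of_perm hcop hm₁ hn₁ hn₂ _ _ rfl rfl h
  · intro h
    exact perm_of_subset (perm_of_dvd hn₁ hn₂ h)

/-- the number of subgroups permuting with a subgroup of type `(m₁, n₁)` -/
def W (m n r m₁ n₁ : ℕ) : ℕ := ∑ m₂ ∈ m.divisors, ∑ n₂ ∈ n.divisors,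
  e m₂ (r ^ n₂ - 1) / e (Nat.gcd m₁ m₂) ((r ^ n₁ - 1) * (r ^ n₂ - 1))

theorem sum_perm (hcop : Nat.Coprime m n) (hr0 : 0 < r) {m₁ n₁ : ℕ} (hm₁ : m₁ ∣ m)
    (hn₁ : n₁ ∣ n) (u : ℤ) : (open Classical in ∑ q ∈ tri m n r,
      if ((Hs m₁ n₁ hn₁ u : Subgroup (ZM m n r)) : Set (ZM m n r)) * (Phi m n r q : Set (ZM m n r)) =
        (Phi m n r q : Set (ZM m n r)) * ((Hs m₁ n₁ hn₁ u : Subgroup (ZM m n r)) : Set (ZM m n r))
      then 1 else 0) = W m n r m₁ n₁ := by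
  classical
  have hm0 : 0 < m := Nat.pos_of_ne_zero (NeZero.ne m)
  unfold tri W
  rw [Finset.sum_sigma, Finset.sum_product]
  refine Finset.sum_congr rfl fun m₂ hm₂ => Finset.sum_congr rfl fun n₂ hn₂ => ?_
  have hm₂' : m₂ ∣ m := Nat.dvd_of_mem_divisors hm₂
  have hn₂' : n₂ ∣ n := Nat.dvd_of_mem_divisors hn₂
  have hpos : 0 < Nat.gcd m₁ m₂ :=
    Nat.pos_of_dvd_of_pos ((Nat.gcd_dvd_left _ _).trans hm₁) hm0
  rw [← cnt (e_pos hpos _) (e_dvd_e (Nat.pos_of_dvd_of_pos hm₂' hm0) (Nat.gcd_dvd_right _ _)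
    (dvd_mul_left _ _)) u]
  refine Finset.sum_congr rfl fun v _ => ?_
  have h1 : Phi m n r ⟨(m₂, n₂), v⟩ = Hs m₂ n₂ hn₂' v := Phi_eq hn₂'
  rw [h1]
  by_cases h : (e (Nat.gcd m₁ m₂) ((r ^ n₁ - 1) * (r ^ n₂ - 1)) : ℤ) ∣ (v : ℤ) - u
  · rw [if_pos ((perm_iff hcop hr0 hm₁ hn₁ hn₂').2 h), if_pos h]
  · rw [if_neg (fun h' => h ((perm_iff hcop hr0 hm₁ hn₁ hn₂').1 h')), if_neg h]

end

end Pool.Agent.X288.ZMG
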