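import Pool.Agent.X288.ZM.Count

/-!
# The relative subgroup commutativity degrees of `ZM(m, n, r)`
-/

set_option autoImplicit false
set_option linter.unusedSectionVars false

open Finset Pointwise

namespace Pool.Agent.X288.ZMG

variable {m n r : ℕ} [NeZero m] [NeZero n] [hr : Fact ((r : ZMod m) ^ n = 1)]

/-- sums over the triples of the subgroups of `H` -/
theorem sum_le (hr0 : 0 < r) {M N : ℕ} (hM : M ∣ m) (hN : N ∣ n) (h : ℤ) (w : ℕ × ℕ → ℕ) :
    (open Classical in ∑ p ∈ tri m n r,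
      if Phi m n r p ≤ (Hs M N hN h : Subgroup (ZM m n r)) then w p.1 else 0) =
    ∑ m₁ ∈ m.divisors with M ∣ m₁, ∑ n₁ ∈ n.divisors with N ∣ n₁,
      e m₁ (r ^ n₁ - 1) / e M (r ^ n₁ - 1) * w (m₁, n₁) := by
  classical
  have hm0 : 0 < m := Nat.pos_of_ne_zero (NeZero.ne m)
  have hM0 : 0 < M := Nat.pos_of_dvd_of_pos hM hm0
  unfold tri
  rw [Finset.sum_sigma, Finset.sum_product, Finset.sum_filter]
  refine Finset.sum_congr rfl fun m₁ hm₁ => ?_
  have hm₁' : m₁ ∣ m := Nat.dvd_of_mem_divisors hm₁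
  by_cases h1 : M ∣ m₁
  · rw [if_pos h1, Finset.sum_filter]
    refine Finset.sum_congr rfl fun n₁ hn₁ => ?_
    have hn₁' : n₁ ∣ n := Nat.dvd_of_mem_divisors hn₁
    by_cases h2 : N ∣ n₁
    · rw [if_pos h2, ← cnt (e_pos hM0 _) (e_dvd_e (Nat.pos_of_dvd_of_pos hm₁' hm0) h1 dvd_rfl) h,
        Finset.sum_mul]
      refine Finset.sum_congr rfl fun v _ => ?_
      have h3 : Phi m n r ⟨(m₁, n₁), v⟩ = Hs m₁ n₁ hn₁' v := Phi_eq hn₁'
      rw [h3]
      by_cases h4 : (e M (r ^ n₁ - 1) : ℤ) ∣ (v : ℤ) - h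
      · rw [if_pos ((Hs_le' hr0 hn₁' hN hM).2 ⟨h1, h2, h4⟩), if_pos h4, one_mul]
      · rw [if_neg (fun h' => h4 ((Hs_le' hr0 hn₁' hN hM).1 h').2.2), if_neg h4, zero_mul]
    · rw [if_neg h2]
      refine Finset.sum_eq_zero fun v _ => ?_
      have h3 : Phi m n r ⟨(m₁, n₁), v⟩ = Hs m₁ n₁ hn₁' v := Phi_eq hn₁'
      rw [h3, if_neg (fun h' => h2 ((Hs_le' hr0 hn₁' hN hM).1 h').2.1)]
  · rw [if_neg h1]
    refine Finset.sum_eq_zero fun n₁ hn₁ => Finset.sum_eq_zero fun v _ => ?_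
    have hn₁' : n₁ ∣ n := Nat.dvd_of_mem_divisors hn₁
    have h3 : Phi m n r ⟨(m₁, n₁), v⟩ = Hs m₁ n₁ hn₁' v := Phi_eq hn₁'
    rw [h3, if_neg (fun h' => h1 ((Hs_le' hr0 hn₁' hN hM).1 h').1)]

theorem ncard_pred (hcop : Nat.Coprime m n) (hr0 : 0 < r) (P : Subgroup (ZM m n r) → Prop) :
    {A : Subgroup (ZM m n r) | P A}.ncard =
      (open Classical in ∑ p ∈ tri m n r, if P (Phi m n r p) then 1 else 0) := by
  classical
  have hb := Phi_bij (m := m) (n := n) (r := r) hcop hr0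
  rw [← Finset.card_filter, ← Set.ncard_coe_finset, ← Set.InjOn.ncard_image (f := Phi m n r)
    (hb.injOn.mono (by intro p hp; exact Finset.mem_coe.2 (Finset.mem_filter.1 hp).1))]
  congr 1
  ext A
  constructor
  · intro hA
    obtain ⟨p, hp, rfl⟩ := hb.surjOn (Set.mem_univ A)
    exact ⟨p, Finset.mem_coe.2 (Finset.mem_filter.2 ⟨hp, hA⟩), rfl⟩
  · rintro ⟨p, hp, rfl⟩
    exact (Finset.mem_filter.1 hp).2

theorem ncard_pairs (hcop : Nat.Coprime m n) (hr0 : 0 < r)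
    (P : Subgroup (ZM m n r) → Subgroup (ZM m n r) → Prop) :
    {A : Subgroup (ZM m n r) × Subgroup (ZM m n r) | P A.1 A.2}.ncard =
      (open Classical in ∑ p ∈ tri m n r, ∑ q ∈ tri m n r,
        if P (Phi m n r p) (Phi m n r q) then 1 else 0) := by
  classical
  have hb := Phi_bij (m := m) (n := n) (r := r) hcop hr0
  rw [← Finset.sum_product', ← Finset.card_filter, ← Set.ncard_coe_finset,
    ← Set.InjOn.ncard_image (f := Prod.map (Phi m n r) (Phi m n r))]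
  · congr 1
    ext ⟨A, B⟩
    constructor
    · intro hA
      obtain ⟨p, hp, rfl⟩ := hb.surjOn (Set.mem_univ A)
      obtain ⟨q, hq, rfl⟩ := hb.surjOn (Set.mem_univ B)
      exact ⟨(p, q), Finset.mem_coe.2 (Finset.mem_filter.2 ⟨Finset.mem_product.2 ⟨hp, hq⟩, hA⟩),
        rfl⟩
    · rintro ⟨⟨p, q⟩, hp, he⟩
      rw [← he]
      exact (Finset.mem_filter.1 hp).2
  · rintro ⟨p, q⟩ hp ⟨p', q'⟩ hp' he
    have h1 := Finset.mem_product.1 (Finset.mem_filter.1 hp).1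
    have h2 := Finset.mem_product.1 (Finset.mem_filter.1 hp').1
    have h3 := Prod.ext_iff.1 he
    exact Prod.ext (hb.injOn h1.1 h2.1 h3.1) (hb.injOn h1.2 h2.2 h3.2)

theorem card_sub (hcop : Nat.Coprime m n) (hr0 : 0 < r) : Nat.card (Subgroup (ZM m n r)) =
    ∑ m₂ ∈ m.divisors, ∑ n₂ ∈ n.divisors, e m₂ (r ^ n₂ - 1) := by
  have h1 := ncard_pred (m := m) (n := n) (r := r) hcop hr0 (fun _ => True)
  rw [Set.ofPred_true, Set.ncard_univ] at h1
  rw [h1]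
  simp only [if_true]
  unfold tri
  rw [Finset.sum_sigma, Finset.sum_product]
  refine Finset.sum_congr rfl fun _ _ => Finset.sum_congr rfl fun _ _ => ?_
  simp

theorem card_le (hcop : Nat.Coprime m n) (hr0 : 0 < r) {M N : ℕ} (hM : M ∣ m) (hN : N ∣ n)
    (h : ℤ) : {A : Subgroup (ZM m n r) | A ≤ Hs M N hN h}.ncard =
      ∑ m₁ ∈ m.divisors with M ∣ m₁, ∑ n₁ ∈ n.divisors with N ∣ n₁,
        e m₁ (r ^ n₁ - 1) / e M (r ^ n₁ - 1) := by
  rw [ncard_pred hcop hr0, sum_le hr0 hM hN h fun _ => 1]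
  simp only [mul_one]

theorem card_perm (hcop : Nat.Coprime m n) (hr0 : 0 < r) {M N : ℕ} (hM : M ∣ m) (hN : N ∣ n)
    (h : ℤ) : {A : Subgroup (ZM m n r) × Subgroup (ZM m n r) | A.1 ≤ Hs M N hN h ∧
        (A.1 : Set (ZM m n r)) * (A.2 : Set (ZM m n r)) =
          (A.2 : Set (ZM m n r)) * (A.1 : Set (ZM m n r))}.ncard =
      ∑ m₁ ∈ m.divisors with M ∣ m₁, ∑ n₁ ∈ n.divisors with N ∣ n₁,
        e m₁ (r ^ n₁ - 1) / e M (r ^ n₁ - 1) * W m n r m₁ n₁ := by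
  classical
  rw [ncard_pairs hcop hr0 (fun A B => A ≤ Hs M N hN h ∧
    (A : Set (ZM m n r)) * (B : Set (ZM m n r)) = (B : Set (ZM m n r)) * (A : Set (ZM m n r))),
    ← sum_le hr0 hM hN h fun p => W m n r p.1 p.2]
  refine Finset.sum_congr rfl fun p hp => ?_
  obtain ⟨⟨h1, h2⟩, -⟩ := mem_tri.1 hp
  by_cases h3 : Phi m n r p ≤ Hs M N hN h
  · rw [if_pos h3, ← sum_perm hcop hr0 h1 h2 p.2]
    refine Finset.sum_congr rfl fun q _ => ?_
    rw [Phi_eq h2] at h3 ⊢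
    by_cases h4 : ((Hs p.1.1 p.1.2 h2 p.2 : Subgroup (ZM m n r)) : Set (ZM m n r)) *
        (Phi m n r q : Set (ZM m n r)) = (Phi m n r q : Set (ZM m n r)) *
        ((Hs p.1.1 p.1.2 h2 p.2 : Subgroup (ZM m n r)) : Set (ZM m n r))
    · rw [if_pos ⟨h3, h4⟩, if_pos h4]
    · rw [if_neg (fun hh => h4 hh.2), if_neg h4]
  · rw [if_neg h3]
    refine Finset.sum_eq_zero fun q _ => ?_
    rw [if_neg (fun hh => h3 hh.1)]

/-! ### The presentation and the subgroups in the usual notation -/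

/-- the generator `a` -/
def ga (m n r : ℕ) : ZM m n r := ⟨0, 1⟩

/-- the generator `b` -/
def gb (m n r : ℕ) : ZM m n r := ⟨1, 0⟩

theorem ga_pow (k : ℕ) : (ga m n r) ^ k = ⟨0, k⟩ := by
  ext
  · rw [pow_y]
    show (k : ZMod n) * 0 = 0
    rw [mul_zero]
  · rw [pow_x]
    show (1 : ZMod m) * ∑ i ∈ range k, R m n r 0 ^ i = k
    rw [R_zero]
    simp

theorem gb_pow (k : ℕ) : (gb m n r) ^ k = ⟨k, 0⟩ := by
  ext
  · rw [pow_y]
    show (k : ZMod n) * 1 = k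
    rw [mul_one]
  · rw [pow_x]
    show (0 : ZMod m) * _ = 0
    rw [zero_mul]

theorem normal_form (g : ZM m n r) : g = gb m n r ^ g.y.val * ga m n r ^ g.x.val := by
  rw [ga_pow, gb_pow, ZMod.natCast_zmod_val, ZMod.natCast_zmod_val]
  ext
  · rw [mul_y]
    exact (add_zero _).symm
  · rw [mul_x]
    show g.x = 0 * _ + g.x
    rw [zero_mul, zero_add]

theorem presentation : Nat.card (ZM m n r) = m * n ∧
    Subgroup.closure {ga m n r, gb m n r} = ⊤ ∧ ga m n r ^ m = 1 ∧ gb m n r ^ n = 1 ∧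
    (gb m n r)⁻¹ * ga m n r * gb m n r = ga m n r ^ r := by
  refine ⟨?_, ?_, ?_, ?_, ?_⟩
  · have h1 : Nat.card (ZM m n r) = Nat.card (ZMod n × ZMod m) :=
      Nat.card_congr ⟨fun g => (g.y, g.x), fun p => ⟨p.1, p.2⟩, fun _ => rfl, fun _ => rfl⟩
    rw [h1, Nat.card_prod, Nat.card_zmod, Nat.card_zmod, mul_comm]
  · rw [eq_top_iff]
    intro g _
    rw [normal_form g]
    exact Subgroup.mul_mem _ (Subgroup.pow_mem _ (Subgroup.subset_closure (by simp)) _)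
      (Subgroup.pow_mem _ (Subgroup.subset_closure (by simp)) _)
  · rw [ga_pow, ZMod.natCast_self]
    rfl
  · rw [gb_pow, ZMod.natCast_self]
    rfl
  · rw [ga_pow]
    ext
    · rw [mul_y, mul_y, inv_y]
      show -(1 : ZMod n) + 0 + 1 = 0
      ring
    · rw [mul_x, mul_x, inv_x]
      show (-((0 : ZMod m) * R m n r (-1)) * R m n r 0 + 1) * R m n r 1 + 0 = r
      have h1 : R m n r 1 = r := by
        have := R_nat (m := m) (n := n) (r := r) 1
        rw [Nat.cast_one, pow_one] at this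
        exact this
      rw [h1]
      ring

/-- the subgroups in the usual notation -/
theorem exists_usual (hcop : Nat.Coprime m n) {M N s : ℕ} (hM : M ∣ m) (hN : N ∣ n)
    (hs : M ∣ s * ∑ i ∈ range (n / N), (r ^ N) ^ i) : ∃ u : ℤ,
    ((Hs M N hN u : Subgroup (ZM m n r)) : Set (ZM m n r)) =
      ⋃ k ∈ Set.Icc 1 (n / N), {g | ∃ j : ℕ, g = (gb m n r ^ N * ga m n r ^ s) ^ k *
        (ga m n r ^ M) ^ j} := by
  have hn0 : 0 < n := Nat.pos_of_ne_zero (NeZero.ne n)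
  have hN0 : 0 < N := Nat.pos_of_dvd_of_pos hN hn0
  -- `gcd (M, r ^ N - 1)` divides `s`
  have hd : ((Int.gcd M ((r : ℤ) ^ N - 1) : ℕ) : ℤ) ∣ (s : ℤ) := by
    set d := Int.gcd M ((r : ℤ) ^ N - 1) with hdd
    have h3 : (M : ℤ) ∣ (s : ℤ) * ∑ i ∈ range (n / N), ((r : ℤ) ^ N) ^ i := by
      have := Int.natCast_dvd_natCast.2 hs
      push_cast at this
      exact this
    have h4 : (d : ℤ) ∣ (s : ℤ) * ∑ i ∈ range (n / N), ((r : ℤ) ^ N) ^ i :=
      (Int.gcd_dvd_left _ _).trans h3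
    have h5 : (d : ℤ) ∣ (∑ i ∈ range (n / N), ((r : ℤ) ^ N) ^ i) - (n / N : ℕ) := by
      have e : (∑ i ∈ range (n / N), ((r : ℤ) ^ N) ^ i) - (n / N : ℕ) =
          ∑ i ∈ range (n / N), (((r : ℤ) ^ N) ^ i - 1 ^ i) := by
        rw [Finset.sum_sub_distrib]
        simp
      rw [e]
      exact Finset.dvd_sum fun i _ => (Int.gcd_dvd_right _ _).trans (sub_dvd_pow_sub_pow _ _ i)
    have h6 : (d : ℤ) ∣ (s : ℤ) * (n / N : ℕ) := by
      have e : (s : ℤ) * ((n / N : ℕ) : ℤ) = s * ∑ i ∈ range (n / N), ((r : ℤ) ^ N) ^ i -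
          s * ((∑ i ∈ range (n / N), ((r : ℤ) ^ N) ^ i) - (n / N : ℕ)) := by ring
      rw [e]
      exact dvd_sub h4 (Dvd.dvd.mul_left h5 _)
    have h7 : Nat.Coprime d (n / N) := by
      have a1 : d ∣ m := (Int.natCast_dvd_natCast.1 (Int.gcd_dvd_left _ _)).trans hM
      exact (hcop.coprime_dvd_left a1).coprime_dvd_right (Nat.div_dvd_of_dvd hN)
    exact (Nat.isCoprime_iff_coprime.2 h7).dvd_of_dvd_mul_right h6
  obtain ⟨a, u, hau⟩ : ∃ a u : ℤ, (s : ℤ) = M * a + ((r : ℤ) ^ N - 1) * u := by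
    obtain ⟨q, hq⟩ := hd
    rw [Int.gcd_eq_gcd_ab] at hq
    exact ⟨_, _, by rw [hq, add_mul, mul_assoc, mul_assoc]⟩
  have hau' : (s : ZMod m) = M * a + ((r : ZMod m) ^ N - 1) * u := by
    have := congrArg (fun z : ℤ => (z : ZMod m)) hau
    push_cast at this
    exact this
  refine ⟨u, ?_⟩
  have hbase : gb m n r ^ N * ga m n r ^ s = ⟨N, s⟩ := by
    rw [ga_pow, gb_pow]
    ext
    · rw [mul_y]
      exact add_zero _
    · rw [mul_x]
      show 0 * _ + (s : ZMod m) = s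
      rw [zero_mul, zero_add]
  have hel : ∀ k j : ℕ, (gb m n r ^ N * ga m n r ^ s) ^ k * (ga m n r ^ M) ^ j =
      ⟨k * N, s * (∑ i ∈ range k, ((r : ZMod m) ^ N) ^ i) + j * M⟩ := by
    intro k j
    rw [hbase, ← pow_mul, ga_pow]
    ext
    · rw [mul_y, pow_y]
      exact add_zero _
    · rw [mul_x, pow_x]
      show s * (∑ i ∈ range k, R m n r N ^ i) * R m n r 0 + ((M * j : ℕ) : ZMod m) = _
      rw [R_zero, R_nat, mul_one]
      push_cast
      ring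
  have hgeom : ∀ k : ℕ, (s : ZMod m) * (∑ i ∈ range k, ((r : ZMod m) ^ N) ^ i) =
      M * (a * ∑ i ∈ range k, ((r : ZMod m) ^ N) ^ i) + u * (((r : ZMod m) ^ N) ^ k - 1) := by
    intro k
    rw [hau', ← mul_geom_sum ((r : ZMod m) ^ N) k]
    ring
  have hRk : ∀ k : ℕ, R m n r ((k : ZMod n) * (N : ZMod n)) = ((r : ZMod m) ^ N) ^ k := by
    intro k
    rw [← Nat.cast_mul, R_nat, mul_comm, pow_mul]
  ext g
  rw [SetLike.mem_coe, mem_Hs, Set.mem_iUnion₂]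
  constructor
  · rintro ⟨⟨k, hk⟩, hx⟩
    obtain ⟨k', hk', hkk⟩ : ∃ k' ∈ Set.Icc 1 (n / N), ((k' : ℕ) : ZMod n) * (N : ZMod n) = g.y := by
      rcases Nat.eq_zero_or_pos k with h0 | h0
      · refine ⟨n / N, ⟨(Nat.div_pos (Nat.le_of_dvd hn0 hN) hN0), le_rfl⟩, ?_⟩
        rw [← Nat.cast_mul, Nat.div_mul_cancel hN, ZMod.natCast_self]
        have : g.y.val = 0 := by rw [hk, h0, mul_zero]
        exact ((ZMod.val_eq_zero _).1 this).symm
      · refine ⟨k, ⟨h0, ?_⟩, ?_⟩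
        · rw [Nat.le_div_iff_mul_le hN0, mul_comm, ← hk]
          exact (ZMod.val_lt _).le
        · rw [← Nat.cast_mul, mul_comm, ← hk, ZMod.natCast_zmod_val]
    have h1 := hRk k'
    rw [hkk] at h1
    rw [h1] at hx
    obtain ⟨c, hc⟩ := hx
    refine ⟨k', hk', (c - a * ∑ i ∈ range k', ((r : ZMod m) ^ N) ^ i : ZMod m).val, ?_⟩
    rw [hel, ZMod.natCast_zmod_val, hgeom]
    ext
    · exact hkk.symm
    · show g.x = _
      linear_combination hc
  · rintro ⟨k, hk, j, rfl⟩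
    rw [hel, hgeom]
    refine ⟨?_, ?_⟩
    · show DY N ((k : ZMod n) * (N : ZMod n))
      rw [← Nat.cast_mul, DY_nat hN]
      exact dvd_mul_left _ _
    · show (M : ZMod m) ∣ _ - u * (R m n r ((k : ZMod n) * (N : ZMod n)) - 1)
      rw [hRk]
      refine ⟨a * (∑ i ∈ range k, ((r : ZMod m) ^ N) ^ i) + j, ?_⟩
      ring

end Pool.Agent.X288.ZMG
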