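import Mathlib

/-!
# The group `ZM(m, n, r)` and its subgroups
-/

set_option autoImplicit false
set_option linter.unusedSectionVars false

open Finset Pointwise

namespace Pool.Agent.X288.ZMG

/-- The set `ℤ/n × ℤ/m`; the pair `(y, x)` stands for `b ^ y a ^ x`. -/
@[ext]
structure ZM (m n r : ℕ) where
  /-- the exponent of `b` -/
  y : ZMod n
  /-- the exponent of `a` -/
  x : ZMod m

variable {m n r : ℕ}

/-- `r ^ y` modulo `m` -/
def R (m n r : ℕ) (y : ZMod n) : ZMod m := (r : ZMod m) ^ y.val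

section

variable [NeZero m] [NeZero n] [hr : Fact ((r : ZMod m) ^ n = 1)]

omit hr in
theorem R_zero : R m n r 0 = 1 := by simp [R]

theorem R_nat (k : ℕ) : R m n r (k : ZMod n) = (r : ZMod m) ^ k := by
  unfold R
  rw [ZMod.val_natCast, ← pow_eq_pow_mod k hr.out]

theorem R_add (y y' : ZMod n) : R m n r (y + y') = R m n r y * R m n r y' := by
  have h : y + y' = ((y.val + y'.val : ℕ) : ZMod n) := by
    rw [Nat.cast_add, ZMod.natCast_zmod_val, ZMod.natCast_zmod_val]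
  rw [h, R_nat, pow_add]
  rfl

theorem R_neg (y : ZMod n) : R m n r (-y) * R m n r y = 1 := by
  rw [← R_add, neg_add_cancel, R_zero]

instance : Group (ZM m n r) where
  mul g h := ⟨g.y + h.y, g.x * R m n r h.y + h.x⟩
  one := ⟨0, 0⟩
  inv g := ⟨-g.y, -(g.x * R m n r (-g.y))⟩
  mul_assoc g h k := by
    ext
    · exact add_assoc _ _ _
    · show (g.x * R m n r h.y + h.x) * R m n r k.y + k.x =
        g.x * R m n r (h.y + k.y) + (h.x * R m n r k.y + k.x)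
      rw [R_add]
      ring
  one_mul g := by
    ext
    · exact zero_add _
    · show 0 * R m n r g.y + g.x = g.x
      ring
  mul_one g := by
    ext
    · exact add_zero _
    · show g.x * R m n r 0 + 0 = g.x
      rw [R_zero]
      ring
  inv_mul_cancel g := by
    ext
    · exact neg_add_cancel _
    · show -(g.x * R m n r (-g.y)) * R m n r g.y + g.x = 0
      linear_combination -g.x * R_neg (m := m) (n := n) (r := r) g.y

theorem mul_y (g h : ZM m n r) : (g * h).y = g.y + h.y := rfl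
theorem mul_x (g h : ZM m n r) : (g * h).x = g.x * R m n r h.y + h.x := rfl
theorem one_y : (1 : ZM m n r).y = 0 := rfl
theorem one_x : (1 : ZM m n r).x = 0 := rfl
theorem inv_y (g : ZM m n r) : (g⁻¹).y = -g.y := rfl
theorem inv_x (g : ZM m n r) : (g⁻¹).x = -(g.x * R m n r (-g.y)) := rfl

omit hr in
/-- divisibility in `ℤ/m` -/
theorem dvd_int {d : ℕ} (hd : d ∣ m) (z : ℤ) : (d : ZMod m) ∣ (z : ZMod m) ↔ (d : ℤ) ∣ z := by
  constructor
  · rintro ⟨c, hc⟩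
    obtain ⟨c', rfl⟩ := ZMod.intCast_surjective c
    have h1 : ((z - d * c' : ℤ) : ZMod m) = 0 := by
      push_cast
      rw [hc]
      ring
    rw [ZMod.intCast_zmod_eq_zero_iff_dvd] at h1
    have h2 : (d : ℤ) ∣ z - d * c' := (Int.natCast_dvd_natCast.2 hd).trans h1
    have h3 := dvd_add h2 (dvd_mul_right (d : ℤ) c')
    rwa [sub_add_cancel] at h3
  · rintro ⟨c, rfl⟩
    exact ⟨(c : ZMod m), by push_cast; ring⟩

/-- divisibility of `y` by `n₁ ∣ n` -/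
def DY (n₁ : ℕ) (y : ZMod n) : Prop := n₁ ∣ y.val

omit [NeZero m] hr in
theorem DY_nat {n₁ : ℕ} (h : n₁ ∣ n) (k : ℕ) : DY n₁ (k : ZMod n) ↔ n₁ ∣ k := by
  unfold DY
  rw [ZMod.val_natCast]
  exact (Nat.dvd_mod_iff h)

omit [NeZero m] hr in
theorem DY_add {n₁ : ℕ} (h : n₁ ∣ n) {y y' : ZMod n} (hy : DY n₁ y) (hy' : DY n₁ y') :
    DY n₁ (y + y') := by
  have e : y + y' = ((y.val + y'.val : ℕ) : ZMod n) := by
    rw [Nat.cast_add, ZMod.natCast_zmod_val, ZMod.natCast_zmod_val]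
  rw [e, DY_nat h]
  exact dvd_add hy hy'

omit [NeZero m] hr in
theorem DY_neg {n₁ : ℕ} (h : n₁ ∣ n) {y : ZMod n} (hy : DY n₁ y) : DY n₁ (-y) := by
  have e : -y = (((n - 1) * y.val : ℕ) : ZMod n) := by
    have h1 : 1 ≤ n := Nat.one_le_iff_ne_zero.2 (NeZero.ne n)
    rw [Nat.cast_mul, ZMod.natCast_zmod_val, Nat.cast_sub h1, ZMod.natCast_self]
    push_cast
    ring
  rw [e, DY_nat h]
  exact Dvd.dvd.mul_left hy _

theorem pow_sub_one_dvd {n₁ : ℕ} {y : ZMod n} (hy : DY n₁ y) :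
    ((r : ZMod m) ^ n₁ - 1) ∣ (R m n r y - 1) := by
  obtain ⟨k, hk⟩ := hy
  unfold R
  rw [hk, pow_mul]
  have := sub_dvd_pow_sub_pow ((r : ZMod m) ^ n₁) 1 k
  rwa [one_pow] at this

/-- The subgroup of the `b ^ y a ^ x` with `n₁ ∣ y` and `x ≡ u (r ^ y - 1)` modulo `m₁`: the
conjugate by `a ^ u` of the subgroup generated by `a ^ m₁` and `b ^ n₁`. -/
def Hs (m₁ n₁ : ℕ) (hn₁ : n₁ ∣ n) (u : ℤ) : Subgroup (ZM m n r) where
  carrier := {g | DY n₁ g.y ∧ (m₁ : ZMod m) ∣ g.x - u * (R m n r g.y - 1)}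
  mul_mem' {g h} hg hh := by
    refine ⟨DY_add hn₁ hg.1 hh.1, ?_⟩
    rw [mul_x, mul_y, R_add]
    have e : g.x * R m n r h.y + h.x - u * (R m n r g.y * R m n r h.y - 1) =
        (g.x - u * (R m n r g.y - 1)) * R m n r h.y + (h.x - u * (R m n r h.y - 1)) := by ring
    rw [e]
    exact dvd_add (Dvd.dvd.mul_right hg.2 _) hh.2
  one_mem' := by
    refine ⟨?_, ?_⟩
    · rw [one_y]
      unfold DY
      simp
    · rw [one_x, one_y, R_zero]
      simp
  inv_mem' {g} hg := by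
    refine ⟨DY_neg hn₁ hg.1, ?_⟩
    rw [inv_x, inv_y]
    have e : -(g.x * R m n r (-g.y)) - u * (R m n r (-g.y) - 1) =
        -((g.x - u * (R m n r g.y - 1)) * R m n r (-g.y)) := by
      linear_combination (-u : ZMod m) * R_neg (m := m) (n := n) (r := r) g.y
    rw [e]
    exact (Dvd.dvd.mul_right hg.2 _).neg_right

theorem mem_Hs {m₁ n₁ : ℕ} {hn₁ : n₁ ∣ n} {u : ℤ} {g : ZM m n r} : g ∈ Hs m₁ n₁ hn₁ u ↔
    DY n₁ g.y ∧ (m₁ : ZMod m) ∣ g.x - u * (R m n r g.y - 1) := Iff.rfl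

/-- an element of `Hs` -/
theorem std_mem {m₁ n₁ : ℕ} {hn₁ : n₁ ∣ n} {u : ℤ} {y : ZMod n} (hy : DY n₁ y) :
    (⟨y, u * (R m n r y - 1)⟩ : ZM m n r) ∈ Hs m₁ n₁ hn₁ u := by
  refine ⟨hy, ?_⟩
  show (m₁ : ZMod m) ∣ _
  rw [sub_self]
  exact dvd_zero _

theorem Hs_le {m₁ n₁ M N : ℕ} (hn₁ : n₁ ∣ n) (hN : N ∣ n) (hM : M ∣ m) {u h : ℤ} :
    (Hs m₁ n₁ hn₁ u : Subgroup (ZM m n r)) ≤ Hs M N hN h ↔
      M ∣ m₁ ∧ N ∣ n₁ ∧ (M : ZMod m) ∣ (u - h) * ((r : ZMod m) ^ n₁ - 1) := by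
  constructor
  · intro hle
    have h1 : (⟨0, m₁⟩ : ZM m n r) ∈ Hs m₁ n₁ hn₁ u := by
      refine ⟨?_, ?_⟩
      · show DY n₁ 0
        unfold DY
        simp
      · show (m₁ : ZMod m) ∣ m₁ - u * (R m n r 0 - 1)
        rw [R_zero]
        simp
    have h2 := (hle h1).2
    have h3 : (M : ZMod m) ∣ ((m₁ : ℤ) : ZMod m) := by
      have e : ((m₁ : ZMod m)) - h * (R m n r 0 - 1) = ((m₁ : ℤ) : ZMod m) := by
        rw [R_zero]
        push_cast
        ring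
      rw [← e]
      exact h2
    rw [dvd_int hM, Int.natCast_dvd_natCast] at h3
    have h4 : (⟨(n₁ : ZMod n), u * (R m n r n₁ - 1)⟩ : ZM m n r) ∈ Hs m₁ n₁ hn₁ u :=
      std_mem ((DY_nat hn₁ n₁).2 dvd_rfl)
    have h5 := hle h4
    refine ⟨h3, (DY_nat hN n₁).1 h5.1, ?_⟩
    have h6 : (M : ZMod m) ∣ u * (R m n r n₁ - 1) - h * (R m n r n₁ - 1) := h5.2
    rw [R_nat] at h6
    have e : ((u - h : ZMod m)) * ((r : ZMod m) ^ n₁ - 1) =
      u * ((r : ZMod m) ^ n₁ - 1) - h * ((r : ZMod m) ^ n₁ - 1) := by ring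
    rw [e]
    exact h6
  · rintro ⟨h1, h2, h3⟩ g hg
    refine ⟨h2.trans hg.1, ?_⟩
    have e : g.x - h * (R m n r g.y - 1) =
        (g.x - u * (R m n r g.y - 1)) + (u - h) * (R m n r g.y - 1) := by ring
    rw [e]
    refine dvd_add (((Nat.cast_dvd_cast h1)).trans hg.2) (h3.trans ?_)
    exact mul_dvd_mul_left _ (pow_sub_one_dvd hg.1)

theorem pow_y (g : ZM m n r) (k : ℕ) : (g ^ k).y = k * g.y := by
  induction k with
  | zero => rw [pow_zero, one_y]; simp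
  | succ k ih => rw [pow_succ, mul_y, ih]; push_cast; ring

theorem pow_x (g : ZM m n r) (k : ℕ) :
    (g ^ k).x = g.x * ∑ i ∈ range k, R m n r g.y ^ i := by
  induction k with
  | zero => rw [pow_zero, one_x]; simp
  | succ k ih =>
    rw [pow_succ, mul_x, ih, Finset.sum_range_succ', pow_zero, mul_add, mul_one, mul_assoc,
      Finset.sum_mul]
    congr 2
    refine Finset.sum_congr rfl fun i _ => ?_
    rw [pow_succ]

theorem exists_gen {k : ℕ} (P : AddSubgroup ℤ) (hk : (k : ℤ) ∈ P) :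
    ∃ d : ℕ, d ∣ k ∧ ∀ t : ℤ, t ∈ P ↔ (d : ℤ) ∣ t := by
  obtain ⟨a, ha⟩ := Int.subgroup_cyclic P
  have h1 : ∀ t : ℤ, t ∈ P ↔ (a.natAbs : ℤ) ∣ t := by
    intro t
    rw [ha, Int.natAbs_dvd, AddSubgroup.mem_closure_singleton]
    constructor
    · rintro ⟨b, rfl⟩
      exact ⟨b, by rw [zsmul_eq_mul, mul_comm]; rfl⟩
    · rintro ⟨b, rfl⟩
      exact ⟨b, by rw [zsmul_eq_mul, mul_comm]; rfl⟩
  exact ⟨a.natAbs, Int.natCast_dvd_natCast.1 ((h1 k).1 hk), h1⟩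

theorem exists_Hs (hcop : Nat.Coprime m n) (K : Subgroup (ZM m n r)) :
    ∃ (m₁ n₁ : ℕ) (_ : m₁ ∣ m) (hn₁ : n₁ ∣ n) (u : ℤ), K = Hs m₁ n₁ hn₁ u := by
  -- the projection
  obtain ⟨n₁, hn₁, hP⟩ := exists_gen (k := n)
    { carrier := {t : ℤ | ∃ g ∈ K, g.y = (t : ZMod n)}
      zero_mem' := ⟨1, K.one_mem, by rw [one_y]; simp⟩
      add_mem' := by
        rintro s t ⟨g, hg, h1⟩ ⟨h, hh, h2⟩
        exact ⟨g * h, K.mul_mem hg hh, by rw [mul_y, h1, h2]; push_cast; rfl⟩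
      neg_mem' := by
        rintro s ⟨g, hg, h1⟩
        exact ⟨g⁻¹, K.inv_mem hg, by rw [inv_y, h1]; push_cast; rfl⟩ }
    ⟨1, K.one_mem, by rw [one_y]; simp⟩
  obtain ⟨m₁, hm₁, hQ⟩ := exists_gen (k := m)
    { carrier := {t : ℤ | (⟨0, (t : ZMod m)⟩ : ZM m n r) ∈ K}
      zero_mem' := by
        show (⟨0, ((0 : ℤ) : ZMod m)⟩ : ZM m n r) ∈ K
        rw [Int.cast_zero]
        exact K.one_mem
      add_mem' := by
        intro s t hs ht
        have h1 := K.mul_mem hs ht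
        have e : (⟨0, (s : ZMod m)⟩ : ZM m n r) * ⟨0, (t : ZMod m)⟩ =
            ⟨0, ((s + t : ℤ) : ZMod m)⟩ := by
          ext
          · rw [mul_y]
            exact add_zero _
          · rw [mul_x]
            show (s : ZMod m) * R m n r 0 + t = ((s + t : ℤ) : ZMod m)
            rw [R_zero]
            push_cast
            ring
        rw [e] at h1
        exact h1
      neg_mem' := by
        intro s hs
        have h1 := K.inv_mem hs
        have e : (⟨0, (s : ZMod m)⟩ : ZM m n r)⁻¹ = ⟨0, ((-s : ℤ) : ZMod m)⟩ := by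
          ext
          · rw [inv_y]
            exact neg_zero
          · rw [inv_x]
            show -((s : ZMod m) * R m n r (-0)) = ((-s : ℤ) : ZMod m)
            rw [neg_zero, R_zero]
            push_cast
            ring
        rw [e] at h1
        exact h1 }
    (by
      show (⟨0, ((m : ℤ) : ZMod m)⟩ : ZM m n r) ∈ K
      have e : ((m : ℤ) : ZMod m) = 0 := by simp
      rw [e]
      exact K.one_mem)
  have hP' : ∀ y : ZMod n, (∃ g ∈ K, g.y = y) ↔ DY n₁ y := by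
    intro y
    have h1 := hP (y.val : ℤ)
    have h2 : (((y.val : ℕ) : ℤ) : ZMod n) = y := by
      rw [Int.cast_natCast, ZMod.natCast_zmod_val]
    constructor
    · rintro ⟨g, hg, h⟩
      exact Int.natCast_dvd_natCast.1 (h1.1 ⟨g, hg, h.trans h2.symm⟩)
    · intro h
      obtain ⟨g, hg, h3⟩ := h1.2 (Int.natCast_dvd_natCast.2 h)
      exact ⟨g, hg, h3.trans h2⟩
  have hQ' : ∀ z : ZMod m, (⟨0, z⟩ : ZM m n r) ∈ K ↔ (m₁ : ZMod m) ∣ z := by
    intro z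
    obtain ⟨t, rfl⟩ := ZMod.intCast_surjective z
    rw [dvd_int hm₁]
    exact hQ t
  obtain ⟨g₀, hg₀, hy₀⟩ := (hP' (n₁ : ZMod n)).2 ((DY_nat hn₁ n₁).2 dvd_rfl)
  have hR₀ : R m n r g₀.y = (r : ZMod m) ^ n₁ := by rw [hy₀, R_nat]
  obtain ⟨X, hX⟩ := ZMod.intCast_surjective g₀.x
  have hn0 : 0 < n₁ := Nat.pos_of_dvd_of_pos hn₁ (Nat.pos_of_ne_zero (NeZero.ne n))
  -- `gcd (m₁, r ^ n₁ - 1)` divides `X`
  have hd : ((Int.gcd m₁ ((r : ℤ) ^ n₁ - 1) : ℕ) : ℤ) ∣ X := by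
    set d := Int.gcd m₁ ((r : ℤ) ^ n₁ - 1) with hdd
    obtain ⟨k, hk⟩ := hn₁
    have h1 : (g₀ ^ k).y = 0 := by
      rw [pow_y, hy₀]
      have e : ((n₁ * k : ℕ) : ZMod n) = 0 := by rw [← hk, ZMod.natCast_self]
      rw [← e]
      push_cast
      ring
    have h2 : (⟨0, (g₀ ^ k).x⟩ : ZM m n r) ∈ K := by
      have e : (⟨0, (g₀ ^ k).x⟩ : ZM m n r) = g₀ ^ k := by
        ext
        · exact h1.symm
        · rfl
      rw [e]
      exact K.pow_mem hg₀ k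
    rw [hQ', pow_x, hR₀, ← hX] at h2
    have h3 : (m₁ : ZMod m) ∣ ((X * ∑ i ∈ range k, ((r : ℤ) ^ n₁) ^ i : ℤ) : ZMod m) := by
      push_cast
      exact h2
    rw [dvd_int hm₁] at h3
    have h4 : (d : ℤ) ∣ X * ∑ i ∈ range k, ((r : ℤ) ^ n₁) ^ i :=
      (Int.gcd_dvd_left _ _).trans h3
    have h5 : (d : ℤ) ∣ (∑ i ∈ range k, ((r : ℤ) ^ n₁) ^ i) - k := by
      have e : (∑ i ∈ range k, ((r : ℤ) ^ n₁) ^ i) - k =
          ∑ i ∈ range k, (((r : ℤ) ^ n₁) ^ i - 1 ^ i) := by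
        rw [Finset.sum_sub_distrib]
        simp
      rw [e]
      exact Finset.dvd_sum fun i _ => (Int.gcd_dvd_right _ _).trans (sub_dvd_pow_sub_pow _ _ i)
    have h6 : (d : ℤ) ∣ X * k := by
      have e : X * (k : ℤ) = X * ∑ i ∈ range k, ((r : ℤ) ^ n₁) ^ i -
          X * ((∑ i ∈ range k, ((r : ℤ) ^ n₁) ^ i) - k) := by ring
      rw [e]
      exact dvd_sub h4 (Dvd.dvd.mul_left h5 _)
    have h7 : Nat.Coprime d k := by
      have a1 : d ∣ m := (Int.natCast_dvd_natCast.1 (Int.gcd_dvd_left _ _)).trans hm₁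
      have a2 : k ∣ n := ⟨n₁, by rw [hk, mul_comm]⟩
      exact (hcop.coprime_dvd_left a1).coprime_dvd_right a2
    exact (Nat.isCoprime_iff_coprime.2 h7).dvd_of_dvd_mul_right h6
  obtain ⟨a, u, hau⟩ : ∃ a u : ℤ, X = m₁ * a + ((r : ℤ) ^ n₁ - 1) * u := by
    obtain ⟨q, hq⟩ := hd
    rw [Int.gcd_eq_gcd_ab] at hq
    exact ⟨_, _, by rw [hq, add_mul, mul_assoc, mul_assoc]⟩
  refine ⟨m₁, n₁, hm₁, hn₁, u, ?_⟩
  -- the powers of `g₀`
  have hpow : ∀ y : ZMod n, DY n₁ y → ∃ h ∈ K, h.y = y ∧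
      (m₁ : ZMod m) ∣ h.x - u * (R m n r y - 1) := by
    rintro y ⟨k, hk⟩
    have hyk : ((k : ZMod n)) * g₀.y = y := by
      rw [hy₀, ← ZMod.natCast_zmod_val y, hk]
      push_cast
      ring
    refine ⟨g₀ ^ k, K.pow_mem hg₀ k, by rw [pow_y, hyk], ?_⟩
    have e1 : R m n r y = ((r : ZMod m) ^ n₁) ^ k := by
      unfold R
      rw [hk, pow_mul]
    have e2 : ((r : ZMod m) ^ n₁ - 1) * ∑ i ∈ range k, ((r : ZMod m) ^ n₁) ^ i =
        ((r : ZMod m) ^ n₁) ^ k - 1 := mul_geom_sum _ _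
    have e3 : g₀.x = m₁ * a + ((r : ZMod m) ^ n₁ - 1) * u := by
      rw [← hX, hau]
      push_cast
      ring
    rw [pow_x, hR₀, e1, ← e2, e3]
    refine ⟨a * ∑ i ∈ range k, ((r : ZMod m) ^ n₁) ^ i, ?_⟩
    ring
  ext g
  rw [mem_Hs]
  have hunit : ∀ (z w : ZMod m) (y : ZMod n), z * R m n r (-y) = w → z = w * R m n r y := by
    intro z w y h
    rw [← h, mul_assoc, R_neg, mul_one]
  constructor
  · intro hg
    have hy := (hP' g.y).1 ⟨g, hg, rfl⟩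
    refine ⟨hy, ?_⟩
    obtain ⟨h, hh, h1, h2⟩ := hpow g.y hy
    have h3 := K.mul_mem hg (K.inv_mem hh)
    have e : g * h⁻¹ = ⟨0, (g.x - h.x) * R m n r (-g.y)⟩ := by
      ext
      · rw [mul_y, inv_y, h1]
        exact add_neg_cancel _
      · rw [mul_x, inv_x, inv_y, h1]
        ring
    rw [e, hQ'] at h3
    have h4 : (m₁ : ZMod m) ∣ g.x - h.x := by
      rw [hunit (g.x - h.x) _ g.y rfl]
      exact Dvd.dvd.mul_right h3 _
    have h5 := dvd_add h4 h2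
    rw [sub_add_sub_cancel] at h5
    exact h5
  · rintro ⟨hy, hx⟩
    obtain ⟨h, hh, h1, h2⟩ := hpow g.y hy
    have h3 : (⟨0, (g.x - h.x) * R m n r (-g.y)⟩ : ZM m n r) ∈ K := by
      rw [hQ']
      refine Dvd.dvd.mul_right ?_ _
      have h5 := dvd_sub hx h2
      rwa [sub_sub_sub_cancel_right] at h5
    have e : g = (⟨0, (g.x - h.x) * R m n r (-g.y)⟩ : ZM m n r) * h := by
      ext
      · rw [mul_y, h1]
        exact (zero_add _).symm
      · rw [mul_x, h1]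
        show g.x = (g.x - h.x) * R m n r (-g.y) * R m n r g.y + h.x
        linear_combination (-(g.x - h.x)) * R_neg (m := m) (n := n) (r := r) g.y
    rw [e]
    exact K.mul_mem h3 hh

end

end Pool.Agent.X288.ZMG
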