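import Pool.Agent.X288.ZM.Grp

/-!
# Permutability of subgroups of `ZM(m, n, r)`
-/

set_option autoImplicit false
set_option linter.unusedSectionVars false

open Finset Pointwise

namespace Pool.Agent.X288.ZMG

variable {m n r : ℕ} [NeZero m] [NeZero n] [hr : Fact ((r : ZMod m) ^ n = 1)]

/-- Bezout in `ℤ/m` -/
theorem gcd_bezout (m₁ m₂ : ℕ) {z : ZMod m} (h : ((Nat.gcd m₁ m₂ : ℕ) : ZMod m) ∣ z) :
    ∃ s t : ZMod m, m₂ * s + m₁ * t = z := by
  obtain ⟨c, rfl⟩ := h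
  have h1 := congrArg (fun k : ℤ => (k : ZMod m)) (Nat.gcd_eq_gcd_ab m₁ m₂)
  push_cast at h1
  exact ⟨(Nat.gcdB m₁ m₂ : ZMod m) * c, (Nat.gcdA m₁ m₂ : ZMod m) * c, by
    rw [h1]
    ring⟩

theorem perm_of_dvd {m₁ n₁ m₂ n₂ : ℕ} (hn₁ : n₁ ∣ n) (hn₂ : n₂ ∣ n) {u v : ℤ}
    (h : ((Nat.gcd m₁ m₂ : ℕ) : ZMod m) ∣
      (u - v) * (((r : ZMod m) ^ n₁ - 1) * ((r : ZMod m) ^ n₂ - 1))) :
    ((Hs m₁ n₁ hn₁ u : Subgroup (ZM m n r)) : Set (ZM m n r)) *
        ((Hs m₂ n₂ hn₂ v : Subgroup (ZM m n r)) : Set (ZM m n r)) ⊆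
      ((Hs m₂ n₂ hn₂ v : Subgroup (ZM m n r)) : Set (ZM m n r)) *
        ((Hs m₁ n₁ hn₁ u : Subgroup (ZM m n r)) : Set (ZM m n r)) := by
  rintro _ ⟨a, ha, b, hb, rfl⟩
  obtain ⟨hay, α, hα⟩ := ha
  obtain ⟨hby, β, hβ⟩ := hb
  obtain ⟨c1, hc1⟩ := pow_sub_one_dvd (m := m) (r := r) hay
  obtain ⟨c2, hc2⟩ := pow_sub_one_dvd (m := m) (r := r) hby
  obtain ⟨d, hd⟩ := h
  obtain ⟨g1, hg1⟩ := Nat.gcd_dvd_left m₁ m₂
  obtain ⟨g2, hg2⟩ := Nat.gcd_dvd_right m₁ m₂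
  set R1 := R m n r a.y with hR1
  set R2 := R m n r b.y with hR2
  have hz : ((Nat.gcd m₁ m₂ : ℕ) : ZMod m) ∣
      m₁ * α * R2 + m₂ * β + (u - v) * ((R1 - 1) * (R2 - 1)) := by
    refine dvd_add (dvd_add ?_ ?_) ?_
    · exact Dvd.dvd.mul_right (Dvd.dvd.mul_right (Nat.cast_dvd_cast (Nat.gcd_dvd_left _ _)) _) _
    · exact Dvd.dvd.mul_right (Nat.cast_dvd_cast (Nat.gcd_dvd_right _ _)) _
    · rw [hc1, hc2]
      have e : ((u : ZMod m) - v) * (((r : ZMod m) ^ n₁ - 1) * c1 *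
          (((r : ZMod m) ^ n₂ - 1) * c2)) =
          (u - v) * (((r : ZMod m) ^ n₁ - 1) * ((r : ZMod m) ^ n₂ - 1)) * (c1 * c2) := by ring
      rw [e, hd]
      exact Dvd.dvd.mul_right (Dvd.dvd.mul_right dvd_rfl _) _
  obtain ⟨s, t, hst⟩ := gcd_bezout m₁ m₂ hz
  have hinv := R_neg (m := m) (n := n) (r := r) a.y
  rw [← hR1] at hinv
  refine ⟨⟨b.y, v * (R2 - 1) + m₂ * (s * R m n r (-a.y))⟩, ⟨hby, ?_⟩,
    ⟨a.y, u * (R1 - 1) + m₁ * t⟩, ⟨hay, ?_⟩, ?_⟩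
  · refine ⟨s * R m n r (-a.y), ?_⟩
    show v * (R2 - 1) + m₂ * (s * R m n r (-a.y)) - v * (R2 - 1) = _
    ring
  · refine ⟨t, ?_⟩
    show u * (R1 - 1) + m₁ * t - u * (R1 - 1) = _
    ring
  · show (_ : ZM m n r) * _ = a * b
    ext
    · rw [mul_y, mul_y]
      exact add_comm _ _
    · rw [mul_x, mul_x]
      show (v * (R2 - 1) + m₂ * (s * R m n r (-a.y))) * R1 + (u * (R1 - 1) + m₁ * t) =
        a.x * R2 + b.x
      have ea : a.x = u * (R1 - 1) + m₁ * α := by linear_combination hα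
      have eb : b.x = v * (R2 - 1) + m₂ * β := by linear_combination hβ
      rw [ea, eb]
      linear_combination hst + m₂ * s * hinv

/-- two subgroups permute if one product is contained in the other -/
theorem perm_of_subset {G : Type} [Group G] {A B : Subgroup G}
    (h : (A : Set G) * B ⊆ (B : Set G) * A) : (A : Set G) * B = (B : Set G) * A := by
  refine Set.Subset.antisymm h ?_
  rintro _ ⟨b, hb, a, ha, rfl⟩
  obtain ⟨b', hb', a', ha', he⟩ := h ⟨a⁻¹, A.inv_mem ha, b⁻¹, B.inv_mem hb, rfl⟩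
  refine ⟨a'⁻¹, A.inv_mem ha', b'⁻¹, B.inv_mem hb', ?_⟩
  have h1 := congrArg (·⁻¹) he
  simp only [mul_inv_rev, inv_inv] at h1
  exact h1

/-- an orbit-counting argument: if `{w - T ^ j w}` is a subgroup of `ℤ/g` and `T ^ k = 1` with `k`
prime to `g`, then `T w = w` -/
theorem orbit_trivial {g k : ℕ} [NeZero g] (hgk : Nat.Coprime g k) (T : (ZMod g)ˣ)
    (hT : T ^ k = 1) (w : ZMod g) (X : AddSubgroup (ZMod g))
    (hX : ∀ z, z ∈ X ↔ ∃ U ∈ Subgroup.zpowers T, z = w - U * w) : (T : ZMod g) * w = w := by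
  -- the orbit of `w`
  have h1 : (MulAction.orbit (Subgroup.zpowers T) w).ncard ∣ k := by
    rw [← MulAction.index_stabilizer]
    refine (Subgroup.index_dvd_card _).trans ?_
    rw [Nat.card_zpowers]
    exact orderOf_dvd_of_pow_eq_one hT
  have h2 : (MulAction.orbit (Subgroup.zpowers T) w).ncard ∣ g := by
    have e : (MulAction.orbit (Subgroup.zpowers T) w).ncard = Nat.card X := by
      rw [← Nat.card_coe_set_eq]
      refine Nat.card_congr ⟨fun z => ⟨w - z.1, ?_⟩, fun z => ⟨w - z.1, ?_⟩, ?_, ?_⟩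
      · rw [hX]
        obtain ⟨U, hU⟩ := z.2
        refine ⟨U.1, U.2, ?_⟩
        rw [← hU]
        rfl
      · obtain ⟨U, hU, h⟩ := (hX z.1).1 z.2
        refine ⟨⟨U, hU⟩, ?_⟩
        show (U : ZMod g) * w = _
        rw [h]
        ring
      · intro z
        apply Subtype.ext
        show w - (w - z.1) = z.1
        ring
      · intro z
        apply Subtype.ext
        show w - (w - z.1) = z.1
        ring
    rw [e]
    have h3 := AddSubgroup.card_addSubgroup_dvd_card X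
    rwa [Nat.card_zmod] at h3
  have h3 : (MulAction.orbit (Subgroup.zpowers T) w).ncard = 1 :=
    Nat.eq_one_of_dvd_coprimes hgk h2 h1
  obtain ⟨z, hz⟩ := Set.ncard_eq_one.1 h3
  have h4 : w ∈ MulAction.orbit (Subgroup.zpowers T) w := MulAction.mem_orbit_self w
  have h5 : (T : ZMod g) * w ∈ MulAction.orbit (Subgroup.zpowers T) w :=
    ⟨⟨T, Subgroup.mem_zpowers T⟩, rfl⟩
  rw [hz, Set.mem_singleton_iff] at h4 h5
  rw [h5, h4]

end Pool.Agent.X288.ZMG
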